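import Pool.Agent.H474.MS.Stm3

/-!
# Project MS (helper474), task K1: Kronecker-Weyl equidistribution on the torus
-/

set_option autoImplicit false

open MeasureTheory Filter Topology Set

namespace Pool.Agent.H663.MS.K1

open Pool.Agent.H474.MS

variable {n : ℕ}

/-- the characters of the torus -/
noncomputable def ch (m : Fin n → ℤ) (x : Fin n → ℝ) : ℂ :=
  Complex.exp (((∑ i, (m i : ℝ) * x i : ℝ) : ℂ) * Complex.I)

theorem ch_cont (m : Fin n → ℤ) : Continuous (ch m) := by
  unfold ch
  fun_prop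

theorem per_one {G : (Fin n → ℝ) → ℝ}
    (hper : ∀ (x : Fin n → ℝ) (i : Fin n), G (Function.update x i (x i + 2 * Real.pi)) = G x)
    (x : Fin n → ℝ) (i : Fin n) (k : ℤ) :
    G (Function.update x i (x i + k * (2 * Real.pi))) = G x := by
  have h : Function.Periodic (fun t : ℝ => G (Function.update x i t)) (2 * Real.pi) := by
    intro t
    have h1 := hper (Function.update x i t) i
    rw [Function.update_idem, Function.update_self] at h1
    exact h1
  have h2 := h.int_mul k (x i)
  have h3 : G (Function.update x i (x i + k * (2 * Real.pi))) =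
      G (Function.update x i (x i)) := h2
  rw [h3, Function.update_eq_self]

theorem per_all {G : (Fin n → ℝ) → ℝ}
    (hper : ∀ (x : Fin n → ℝ) (i : Fin n), G (Function.update x i (x i + 2 * Real.pi)) = G x)
    (x : Fin n → ℝ) (k : Fin n → ℤ) :
    G (fun i => x i + k i * (2 * Real.pi)) = G x := by
  classical
  have h : ∀ s : Finset (Fin n),
      G (fun i => if i ∈ s then x i + k i * (2 * Real.pi) else x i) = G x := by
    intro s
    induction s using Finset.induction_on with
    | empty => simp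
    | insert j s hj ih =>
      rw [← ih, ← per_one hper (fun i => if i ∈ s then x i + k i * (2 * Real.pi) else x i) j (k j)]
      congr 1
      funext i
      by_cases hi : i = j
      · subst hi
        rw [Function.update_self, if_pos (Finset.mem_insert_self i s), if_neg hj]
      · rw [Function.update_of_ne hi]
        by_cases his : i ∈ s
        · rw [if_pos (Finset.mem_insert_of_mem his), if_pos his]
        · rw [if_neg his, if_neg]
          rw [Finset.mem_insert, not_or]
          exact ⟨hi, his⟩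
  have h1 := h Finset.univ
  simpa using h1

theorem lift {G : (Fin n → ℝ) → ℝ} (hG : Continuous G)
    (hper : ∀ (x : Fin n → ℝ) (i : Fin n), G (Function.update x i (x i + 2 * Real.pi)) = G x) :
    ∃ F : C(UnitAddTorus (Fin n), ℂ), ∀ y : Fin n → ℝ,
      F (fun i => (y i : UnitAddCircle)) = ((G fun i => 2 * Real.pi * y i : ℝ) : ℂ) := by
  classical
  obtain ⟨q, hqd⟩ : ∃ q : (Fin n → ℝ) → UnitAddTorus (Fin n),
      q = Pi.map (fun _ => (QuotientAddGroup.mk : ℝ → UnitAddCircle)) := ⟨_, rfl⟩
  have hq : IsOpenQuotientMap q := by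
    rw [hqd]
    exact IsOpenQuotientMap.piMap fun _ => QuotientAddGroup.isOpenQuotientMap_mk
  have hq' : ∀ y, q y = fun i => (y i : UnitAddCircle) := by
    intro y
    rw [hqd]
    rfl
  choose rep hrep using hq.surjective
  obtain ⟨g, hg⟩ : ∃ g : (Fin n → ℝ) → ℂ, g = fun y => ((G fun i => 2 * Real.pi * y i : ℝ) : ℂ) :=
    ⟨_, rfl⟩
  have hgc : Continuous g := by
    rw [hg]
    exact Complex.continuous_ofReal.comp (hG.comp (by fun_prop))
  have hinv : ∀ y, g (rep (q y)) = g y := by
    intro y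
    have h1 := hrep (q y)
    have h2 : ∀ i, ∃ k : ℤ, rep (q y) i = y i + k := by
      intro i
      have h3 := congrFun h1 i
      rw [hq', hq'] at h3
      have h4 : ((rep (fun i => (y i : UnitAddCircle)) i : ℝ) : UnitAddCircle) = (y i : ℝ) := h3
      rw [QuotientAddGroup.eq_iff_sub_mem, AddSubgroup.mem_zmultiples_iff] at h4
      obtain ⟨k, hk⟩ := h4
      refine ⟨k, ?_⟩
      rw [hq']
      rw [zsmul_eq_mul, mul_one] at hk
      linarith
    choose k hk using h2
    rw [hg]
    dsimp only
    congr 1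
    have h5 : (fun i => 2 * Real.pi * rep (q y) i) =
        fun i => 2 * Real.pi * y i + k i * (2 * Real.pi) := by
      funext i
      rw [hk i]
      ring
    rw [h5]
    exact per_all hper (fun i => 2 * Real.pi * y i) k
  refine ⟨⟨fun t => g (rep t), ?_⟩, ?_⟩
  · rw [hq.isQuotientMap.continuous_iff]
    have h1 : (fun t => g (rep t)) ∘ q = g := funext hinv
    rw [h1]
    exact hgc
  · intro y
    have h1 := hinv y
    rw [hq'] at h1
    rw [ContinuousMap.coe_mk, h1, hg]

theorem mF_eq (m : Fin n → ℤ) (x : Fin n → ℝ) :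
    UnitAddTorus.mFourier m (fun i => ((x i / (2 * Real.pi) : ℝ) : UnitAddCircle)) = ch m x := by
  have hπ : (Real.pi : ℂ) ≠ 0 := by exact_mod_cast Real.pi_ne_zero
  unfold UnitAddTorus.mFourier ch
  rw [ContinuousMap.coe_mk, Complex.ofReal_sum, Finset.sum_mul, Complex.exp_sum]
  refine Finset.prod_congr rfl fun i _ => ?_
  rw [fourier_coe_apply]
  congr 1
  push_cast
  field_simp

theorem approx {G : (Fin n → ℝ) → ℝ} (hG : Continuous G)
    (hper : ∀ (x : Fin n → ℝ) (i : Fin n), G (Function.update x i (x i + 2 * Real.pi)) = G x)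
    {ε : ℝ} (hε : 0 < ε) : ∃ c : (Fin n → ℤ) →₀ ℂ, ∀ x : Fin n → ℝ,
      ‖((G x : ℝ) : ℂ) - c.sum fun m a => a * ch m x‖ ≤ ε := by
  obtain ⟨F, hF⟩ := lift hG hper
  have h1 : F ∈ (Submodule.span ℂ (range <| UnitAddTorus.mFourier (d := Fin n))).topologicalClosure := by
    rw [UnitAddTorus.span_mFourier_closure_eq_top]
    exact Submodule.mem_top
  have h2 : F ∈ closure ((Submodule.span ℂ (range <| UnitAddTorus.mFourier (d := Fin n)) :
      Submodule ℂ C(UnitAddTorus (Fin n), ℂ)) : Set C(UnitAddTorus (Fin n), ℂ)) := h1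
  obtain ⟨F', hF', hd⟩ := Metric.mem_closure_iff.1 h2 ε hε
  obtain ⟨c, hc⟩ := Finsupp.mem_span_range_iff_exists_finsupp.1 hF'
  refine ⟨c, fun x => ?_⟩
  have h3 := hF fun i => x i / (2 * Real.pi)
  have h4 : (fun i => 2 * Real.pi * (x i / (2 * Real.pi))) = x := by
    funext i
    have := Real.pi_ne_zero
    field_simp
  rw [h4] at h3
  have h5 : F' (fun i => ((x i / (2 * Real.pi) : ℝ) : UnitAddCircle)) = c.sum fun m a => a * ch m x := by
    rw [← hc]
    unfold Finsupp.sum
    rw [ContinuousMap.coe_sum, Finset.sum_apply]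
    refine Finset.sum_congr rfl fun m _ => ?_
    rw [ContinuousMap.coe_smul, Pi.smul_apply, smul_eq_mul, mF_eq]
  rw [← h3, ← h5, ← dist_eq_norm]
  exact (ContinuousMap.dist_apply_le_dist _).trans hd.le

theorem mean_exp (lam : ℝ) : Tendsto
    (fun V : ℝ => (∫ v in (0 : ℝ)..V, Complex.exp (((lam * v : ℝ) : ℂ) * Complex.I)) / (V : ℂ)) atTop
    (𝓝 (if lam = 0 then 1 else 0)) := by
  by_cases h : lam = 0
  · rw [if_pos h]
    refine tendsto_const_nhds.congr' ?_
    filter_upwards [eventually_gt_atTop 0] with V hV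
    have hV' : (V : ℂ) ≠ 0 := by exact_mod_cast hV.ne'
    subst h
    simp [hV']
  · rw [if_neg h]
    rw [tendsto_zero_iff_norm_tendsto_zero]
    have h1 : Tendsto (fun V : ℝ => (2 / |lam|) / V) atTop (𝓝 0) :=
      tendsto_const_nhds.div_atTop tendsto_id
    refine squeeze_zero' (Eventually.of_forall fun _ => norm_nonneg _) ?_ h1
    filter_upwards [eventually_gt_atTop 0] with V hV
    have hc : ((lam : ℂ) * Complex.I) ≠ 0 :=
      mul_ne_zero (by exact_mod_cast h) Complex.I_ne_zero
    have h2 : ∫ v in (0 : ℝ)..V, Complex.exp (((lam * v : ℝ) : ℂ) * Complex.I) =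
        (Complex.exp ((lam : ℂ) * Complex.I * V) - Complex.exp ((lam : ℂ) * Complex.I * (0 : ℝ))) /
          ((lam : ℂ) * Complex.I) := by
      rw [← integral_exp_mul_complex hc]
      congr 1
      funext v
      congr 1
      push_cast
      ring
    rw [h2, norm_div, norm_div, norm_mul, Complex.norm_I, mul_one, Complex.norm_real,
      Complex.norm_real, Real.norm_eq_abs, Real.norm_eq_abs, abs_of_pos hV]
    apply div_le_div_of_nonneg_right _ hV.le
    apply div_le_div_of_nonneg_right _ (abs_nonneg _)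
    have h3 : ∀ u : ℝ, ‖Complex.exp ((lam : ℂ) * Complex.I * u)‖ = 1 := by
      intro u
      have h4 : (lam : ℂ) * Complex.I * u = ((lam * u : ℝ) : ℂ) * Complex.I := by
        push_cast
        ring
      rw [h4, Complex.norm_exp_ofReal_mul_I]
    calc ‖Complex.exp ((lam : ℂ) * Complex.I * V) - Complex.exp ((lam : ℂ) * Complex.I * (0 : ℝ))‖
        ≤ ‖Complex.exp ((lam : ℂ) * Complex.I * V)‖ +
          ‖Complex.exp ((lam : ℂ) * Complex.I * (0 : ℝ))‖ := norm_sub_le _ _
      _ = 2 := by
        rw [h3, h3]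
        norm_num

theorem one_int (m : ℤ) : ∫ x in Ioc (0 : ℝ) (2 * Real.pi),
    Complex.exp (((m * x : ℝ) : ℂ) * Complex.I) = if m = 0 then ((2 * Real.pi : ℝ) : ℂ) else 0 := by
  have hπ := Real.pi_pos
  rw [← intervalIntegral.integral_of_le (by positivity)]
  by_cases h : m = 0
  · rw [if_pos h]
    subst h
    simp
  · rw [if_neg h]
    have hc : ((m : ℂ) * Complex.I) ≠ 0 :=
      mul_ne_zero (by exact_mod_cast h) Complex.I_ne_zero
    have h2 : ∫ v in (0 : ℝ)..(2 * Real.pi), Complex.exp (((m * v : ℝ) : ℂ) * Complex.I) =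
        (Complex.exp ((m : ℂ) * Complex.I * (2 * Real.pi : ℝ)) -
          Complex.exp ((m : ℂ) * Complex.I * (0 : ℝ))) / ((m : ℂ) * Complex.I) := by
      rw [← integral_exp_mul_complex hc]
      congr 1
      funext v
      congr 1
      push_cast
      ring
    have h3 : (m : ℂ) * Complex.I * ((2 * Real.pi : ℝ) : ℂ) = m * (2 * Real.pi * Complex.I) := by
      push_cast
      ring
    rw [h2, h3, Complex.exp_int_mul_two_pi_mul_I, Complex.ofReal_zero, mul_zero, Complex.exp_zero,
      sub_self, zero_div]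

theorem box_int (m : Fin n → ℤ) :
    ∫ x in Set.pi Set.univ (fun _ : Fin n => Ioc (0 : ℝ) (2 * Real.pi)), ch m x =
      if m = 0 then (((2 * Real.pi) ^ n : ℝ) : ℂ) else 0 := by
  rw [volume_pi, Measure.restrict_pi_pi]
  have h1 : ∀ x : Fin n → ℝ, ch m x =
      ∏ i, (fun (i : Fin n) (t : ℝ) => Complex.exp (((m i * t : ℝ) : ℂ) * Complex.I)) i (x i) := by
    intro x
    unfold ch
    rw [Complex.ofReal_sum, Finset.sum_mul, Complex.exp_sum]
  simp_rw [h1]
  rw [integral_fintype_prod_eq_prod (𝕜 := ℂ)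
    (fun (i : Fin n) (t : ℝ) => Complex.exp (((m i * t : ℝ) : ℂ) * Complex.I))]
  simp_rw [one_int]
  by_cases h : m = 0
  · rw [if_pos h]
    subst h
    simp
  · rw [if_neg h]
    obtain ⟨i, hi⟩ : ∃ i, m i ≠ 0 := by
      by_contra h2
      push Not at h2
      exact h (funext h2)
    exact Finset.prod_eq_zero (Finset.mem_univ i) (if_neg hi)

theorem box_integrable {f : (Fin n → ℝ) → ℂ} (hf : Continuous f) :
    IntegrableOn f (Set.pi Set.univ (fun _ : Fin n => Ioc (0 : ℝ) (2 * Real.pi))) := by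
  have h1 : IsCompact (Set.pi Set.univ (fun _ : Fin n => Icc (0 : ℝ) (2 * Real.pi))) :=
    isCompact_univ_pi fun _ => isCompact_Icc
  exact (hf.continuousOn.integrableOn_compact h1).mono_set
    (Set.pi_mono fun _ _ => Ioc_subset_Icc_self)

theorem box_vol : volume.real (Set.pi Set.univ (fun _ : Fin n => Ioc (0 : ℝ) (2 * Real.pi))) =
    (2 * Real.pi) ^ n := by
  have hπ := Real.pi_pos
  rw [measureReal_def, Real.volume_pi_Ioc_toReal (by intro i; positivity)]
  simp

theorem t_K1 : Pool.Agent.H474.MS.S_K1 := by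
  intro n γ hγ G hG hper
  have hπ := Real.pi_pos
  have h2π : (0 : ℝ) < (2 * Real.pi) ^ n := by positivity
  obtain ⟨I, hI⟩ : ∃ I : ℝ, I = (∫ x in Set.pi Set.univ
      (fun _ : Fin n => Ioc (0 : ℝ) (2 * Real.pi)), G x) / (2 * Real.pi) ^ n := ⟨_, rfl⟩
  rw [← hI, Metric.tendsto_atTop']
  intro ε hε
  obtain ⟨c, hc⟩ := approx hG hper (ε := ε / 4) (by positivity)
  obtain ⟨P, hP⟩ : ∃ P : (Fin n → ℝ) → ℂ, P = fun x => c.sum fun m a => a * ch m x := ⟨_, rfl⟩
  have hcP : ∀ x, ‖((G x : ℝ) : ℂ) - P x‖ ≤ ε / 4 := by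
    intro x
    rw [hP]
    exact hc x
  have hPc : Continuous P := by
    rw [hP]
    unfold Finsupp.sum
    exact continuous_finsetSum _ fun m _ => continuous_const.mul (ch_cont m)
  have hGc : Continuous fun x => ((G x : ℝ) : ℂ) := Complex.continuous_ofReal.comp hG
  have hline : Continuous fun v : ℝ => (fun i => γ i * v : Fin n → ℝ) := by fun_prop
  obtain ⟨L, hL⟩ : ∃ L : ℂ, L = c.sum fun m a => a * (if m = 0 then 1 else 0) := ⟨_, rfl⟩
  -- the mean of the trigonometric polynomial
  have h1 : Tendsto (fun V : ℝ => (∫ v in (0 : ℝ)..V, P (fun i => γ i * v)) / (V : ℂ)) atTop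
      (𝓝 L) := by
    have h2 : ∀ V : ℝ, (∫ v in (0 : ℝ)..V, P (fun i => γ i * v)) / (V : ℂ) =
        c.sum fun m a => a * ((∫ v in (0 : ℝ)..V,
          Complex.exp ((((∑ i, (m i : ℝ) * γ i) * v : ℝ) : ℂ) * Complex.I)) / (V : ℂ)) := by
      intro V
      have h3 : ∀ v : ℝ, P (fun i => γ i * v) = ∑ m ∈ c.support, c m *
          Complex.exp ((((∑ i, (m i : ℝ) * γ i) * v : ℝ) : ℂ) * Complex.I) := by
        intro v
        rw [hP]
        unfold Finsupp.sum ch
        refine Finset.sum_congr rfl fun m _ => ?_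
        have h9 : (∑ i : Fin n, (m i : ℝ) * (γ i * v)) = (∑ i : Fin n, (m i : ℝ) * γ i) * v := by
          rw [Finset.sum_mul]
          exact Finset.sum_congr rfl fun i _ => by ring
        dsimp only
        rw [h9]
      simp_rw [h3]
      rw [intervalIntegral.integral_finsetSum]
      · unfold Finsupp.sum
        rw [Finset.sum_div]
        refine Finset.sum_congr rfl fun m _ => ?_
        rw [intervalIntegral.integral_const_mul, mul_div_assoc]
      · intro m _
        apply Continuous.intervalIntegrable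
        fun_prop
    simp_rw [h2]
    rw [hL]
    unfold Finsupp.sum
    refine tendsto_finsetSum _ fun m _ => ?_
    refine Tendsto.const_mul (c m) ?_
    have h4 := mean_exp (∑ i, (m i : ℝ) * γ i)
    have h5 : ((∑ i : Fin n, (m i : ℝ) * γ i) = 0) ↔ m = 0 := by
      constructor
      · intro h6
        have h7 := Fintype.linearIndependent_iff.1 hγ (fun i => (m i : ℚ)) (by
          rw [← h6]
          refine Finset.sum_congr rfl fun i _ => ?_
          rw [Rat.smul_def]
          push_cast
          rfl)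
        funext i
        have := h7 i
        exact_mod_cast this
      · intro h6
        subst h6
        simp
    simp only [h5] at h4
    exact h4
  -- the integral of the trigonometric polynomial
  have h2 : ‖((I : ℝ) : ℂ) - L‖ ≤ ε / 4 := by
    have h3 : ∫ x in Set.pi Set.univ (fun _ : Fin n => Ioc (0 : ℝ) (2 * Real.pi)), P x =
        L * (((2 * Real.pi) ^ n : ℝ) : ℂ) := by
      rw [hP, hL]
      unfold Finsupp.sum
      rw [integral_finsetSum, Finset.sum_mul]
      · refine Finset.sum_congr rfl fun m _ => ?_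
        rw [integral_const_mul, box_int]
        dsimp only
        by_cases h : m = 0
        · rw [if_pos h, if_pos h]
          ring
        · rw [if_neg h, if_neg h]
          ring
      · intro m _
        exact box_integrable (continuous_const.mul (ch_cont m))
    have h4 : ((I : ℝ) : ℂ) * (((2 * Real.pi) ^ n : ℝ) : ℂ) =
        ∫ x in Set.pi Set.univ (fun _ : Fin n => Ioc (0 : ℝ) (2 * Real.pi)), ((G x : ℝ) : ℂ) := by
      rw [integral_complex_ofReal, ← Complex.ofReal_mul, hI, div_mul_cancel₀ _ h2π.ne']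
    have h5 : ‖∫ x in Set.pi Set.univ (fun _ : Fin n => Ioc (0 : ℝ) (2 * Real.pi)),
        (((G x : ℝ) : ℂ) - P x)‖ ≤ ε / 4 * (2 * Real.pi) ^ n := by
      have h6 := norm_setIntegral_le_of_norm_le_const (μ := volume)
        (s := Set.pi Set.univ (fun _ : Fin n => Ioc (0 : ℝ) (2 * Real.pi)))
        (f := fun x => ((G x : ℝ) : ℂ) - P x) (C := ε / 4) (by
          rw [volume_pi, Measure.pi_pi]
          exact ENNReal.prod_lt_top fun i _ => measure_Ioc_lt_top) (fun x _ => hcP x)
      rw [box_vol] at h6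
      exact h6
    rw [integral_sub (box_integrable hGc) (box_integrable hPc), ← h4, h3, ← sub_mul, norm_mul,
      Complex.norm_real, Real.norm_eq_abs, abs_of_pos h2π] at h5
    exact le_of_mul_le_mul_right h5 h2π
  -- the mean of `G`
  have h3 : ∀ V : ℝ, 0 < V → ‖((mean (fun v => G (fun i => γ i * v)) V : ℝ) : ℂ) -
      (∫ v in (0 : ℝ)..V, P (fun i => γ i * v)) / (V : ℂ)‖ ≤ ε / 4 := by
    intro V hV
    unfold mean
    rw [Complex.ofReal_div, ← sub_div, norm_div, Complex.norm_real, Real.norm_eq_abs,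
      abs_of_pos hV, div_le_iff₀ hV, ← intervalIntegral.integral_ofReal,
      ← intervalIntegral.integral_sub]
    · have h4 := intervalIntegral.norm_integral_le_of_norm_le_const (a := (0 : ℝ)) (b := V)
        (f := fun v => ((G (fun i => γ i * v) : ℝ) : ℂ) - P (fun i => γ i * v)) (C := ε / 4)
        (fun v _ => hcP _)
      rwa [sub_zero, abs_of_pos hV] at h4
    · exact (hGc.comp hline).intervalIntegrable _ _
    · exact (hPc.comp hline).intervalIntegrable _ _
  have h4 := Metric.tendsto_atTop'.1 h1 (ε / 4) (by positivity)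
  obtain ⟨N, hN⟩ := h4
  refine ⟨max N 0, fun V hV => ?_⟩
  have hVN : N < V := (le_max_left _ _).trans_lt hV
  have hV0 : 0 < V := (le_max_right _ _).trans_lt hV
  have h5 := hN V hVN
  have h6 := h3 V hV0
  rw [dist_eq_norm] at h5
  have h7 : dist (mean (fun v => G (fun i => γ i * v)) V) I =
      ‖((mean (fun v => G (fun i => γ i * v)) V : ℝ) : ℂ) - ((I : ℝ) : ℂ)‖ := by
    rw [← Complex.ofReal_sub, Complex.norm_real, dist_eq_norm]
  rw [h7]
  have h8 : ((mean (fun v => G (fun i => γ i * v)) V : ℝ) : ℂ) - ((I : ℝ) : ℂ) =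
      (((mean (fun v => G (fun i => γ i * v)) V : ℝ) : ℂ) -
        (∫ v in (0 : ℝ)..V, P (fun i => γ i * v)) / (V : ℂ)) +
      ((∫ v in (0 : ℝ)..V, P (fun i => γ i * v)) / (V : ℂ) - L) - (((I : ℝ) : ℂ) - L) := by ring
  rw [h8]
  calc ‖(((mean (fun v => G (fun i => γ i * v)) V : ℝ) : ℂ) -
        (∫ v in (0 : ℝ)..V, P (fun i => γ i * v)) / (V : ℂ)) +
      ((∫ v in (0 : ℝ)..V, P (fun i => γ i * v)) / (V : ℂ) - L) - (((I : ℝ) : ℂ) - L)‖
      ≤ (ε / 4 + ε / 4) + ε / 4 :=
        (norm_sub_le _ _).trans (add_le_add ((norm_add_le _ _).trans (add_le_add h6 h5.le)) h2)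
    _ < ε := by linarith

end Pool.Agent.H663.MS.K1
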